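import Mathlib

/-!
# MP_9f7b43_nt: explicit data (paper A of helper38, note 2428)

* `F u v z w` : the cubic form of the smooth cubic surface `Y`, `y = (0:0:1:0)`;
* `cu, cv, cz, cw` : the plane cubics (in the rational coordinates `(a,b,r)`) with
  `F (cu, cv, cz, cw) = 0`;
* `sx a b r` : the sextics (the Geiser involution applied to the cubics), `F (sx) = 0`,
  last coordinate `cw ^ 2`;
* `qa, qb, qr` : the point `q1(α) + U q2(α)` of the tangent line number `α`;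
  `cw` on it is `-3 n³ h³ U`;
* `Cub R = R[ρ]/(ρ³-ρ-1)` as a structure with a commutative ring instance.
-/

namespace C31

section Forms

variable {R : Type*} [CommRing R]

/-- The cubic form of `Y`. -/
def F (u v z w : R) : R :=
  (u ^ 2 - u * v + v ^ 2) * z + 4 * u ^ 3 - 15 * u ^ 2 * v + 3 * u * v ^ 2 + 4 * v ^ 3
    + w * (z ^ 2 + 56 * z * w + 931 * w ^ 2)

def cu (a b r : R) : R :=
  14 * a ^ 3 - 42 * a ^ 2 * b + 42 * a * b ^ 2 - 28 * b ^ 3
    + r * (2 * a ^ 2 + 2 * a * b - 3 * b ^ 2) + r ^ 2 * (b - a)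

def cv (a b r : R) : R :=
  28 * a ^ 3 - 42 * a ^ 2 * b + 42 * a * b ^ 2 - 14 * b ^ 3
    + r * (3 * a ^ 2 - 4 * a * b - b ^ 2) - r ^ 2 * a

def cz (a b r : R) : R :=
  r ^ 3 - 91 * a ^ 3 - 210 * a ^ 2 * b + 483 * a * b ^ 2 - 91 * b ^ 3

def cw (a b r : R) : R :=
  a ^ 3 + 12 * a ^ 2 * b - 15 * a * b ^ 2 + b ^ 3 - r * (a ^ 2 - a * b + b ^ 2)

theorem F_cubics (a b r : R) : F (cu a b r) (cv a b r) (cz a b r) (cw a b r) = 0 := by
  unfold F cu cv cz cw; ring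

/-- The sextics: Geiser involution applied to the cubics. -/
def sx (a b r : R) : Fin 4 → R :=
  ![cw a b r * cu a b r, cw a b r * cv a b r,
    -(cw a b r * cz a b r + (cu a b r ^ 2 - cu a b r * cv a b r + cv a b r ^ 2)
      + 56 * cw a b r ^ 2), cw a b r ^ 2]

theorem F_geiser (u v z w : R) (h : F u v z w = 0) :
    F (w * u) (w * v) (-(w * z + (u ^ 2 - u * v + v ^ 2) + 56 * w ^ 2)) (w ^ 2) = 0 := by
  have : F (w * u) (w * v) (-(w * z + (u ^ 2 - u * v + v ^ 2) + 56 * w ^ 2)) (w ^ 2)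
      = w ^ 3 * F u v z w := by
    unfold F; ring
  rw [this, h, mul_zero]

theorem F_sx (a b r : R) :
    F (sx a b r 0) (sx a b r 1) (sx a b r 2) (sx a b r 3) = 0 :=
  F_geiser _ _ _ _ (F_cubics a b r)

/-- `n = a² - a b + b²` at `b = 1`. -/
def qn (α : R) : R := α ^ 2 - α + 1

/-- `h = Tr(ϖ p³)` at `p = α + ω`. -/
def qh (α : R) : R := α ^ 3 + 12 * α ^ 2 - 15 * α + 1

/-- `g`, with `h² + 3 g² = 28 n³`. -/
def qg (α : R) : R := -3 * α ^ 3 + 6 * α ^ 2 + 3 * α - 3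

theorem qhg (α : R) : qh α ^ 2 + 3 * qg α ^ 2 = 28 * qn α ^ 3 := by
  unfold qh qg qn; ring

/-- First coordinate of `q1(α) + U q2(α)`. -/
def qa (α U : R) : R := qn α ^ 2 * (-4 * α ^ 2 + 10 * α - 1) + U * (qn α * α)

/-- Second coordinate of `q1(α) + U q2(α)`. -/
def qb (α U : R) : R := qn α ^ 2 * (α ^ 2 + 8 * α - 5) + U * qn α

/-- Third coordinate of `q1(α) + U q2(α)`. -/
def qr (α U : R) : R := -3 * qg α * qh α + U * qh α

theorem cw_q (α U : R) : cw (qa α U) (qb α U) (qr α U) = -3 * qn α ^ 3 * qh α ^ 3 * U := by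
  unfold cw qa qb qr qn qh qg; ring

/-- `Θ(α, U) = sx (q1(α) + U q2(α))`. -/
def Theta (α U : R) : Fin 4 → R := sx (qa α U) (qb α U) (qr α U)

theorem F_Theta (α U : R) :
    F (Theta α U 0) (Theta α U 1) (Theta α U 2) (Theta α U 3) = 0 := F_sx _ _ _

end Forms

/-- `R[ρ]/(ρ³ - ρ - 1)`: elements `a0 + a1 ρ + a2 ρ²`. -/
@[ext] structure Cub (R : Type*) where
  a0 : R
  a1 : R
  a2 : R

namespace Cub

section Ring

variable {R : Type*} [CommRing R]

instance : Zero (Cub R) := ⟨⟨0, 0, 0⟩⟩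
instance : One (Cub R) := ⟨⟨1, 0, 0⟩⟩
instance : Add (Cub R) := ⟨fun x y => ⟨x.a0 + y.a0, x.a1 + y.a1, x.a2 + y.a2⟩⟩
instance : Neg (Cub R) := ⟨fun x => ⟨-x.a0, -x.a1, -x.a2⟩⟩
instance : Sub (Cub R) := ⟨fun x y => ⟨x.a0 - y.a0, x.a1 - y.a1, x.a2 - y.a2⟩⟩
instance : Mul (Cub R) := ⟨fun x y =>
  ⟨x.a0 * y.a0 + (x.a1 * y.a2 + x.a2 * y.a1),
   x.a0 * y.a1 + x.a1 * y.a0 + (x.a1 * y.a2 + x.a2 * y.a1) + x.a2 * y.a2,
   x.a0 * y.a2 + x.a1 * y.a1 + x.a2 * y.a0 + x.a2 * y.a2⟩⟩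
instance : SMul ℕ (Cub R) := ⟨fun n x => ⟨n • x.a0, n • x.a1, n • x.a2⟩⟩
instance : SMul ℤ (Cub R) := ⟨fun n x => ⟨n • x.a0, n • x.a1, n • x.a2⟩⟩
instance : NatCast (Cub R) := ⟨fun n => ⟨n, 0, 0⟩⟩
instance : IntCast (Cub R) := ⟨fun n => ⟨n, 0, 0⟩⟩

@[simp] theorem zero_a0 : (0 : Cub R).a0 = 0 := rfl
@[simp] theorem zero_a1 : (0 : Cub R).a1 = 0 := rfl
@[simp] theorem zero_a2 : (0 : Cub R).a2 = 0 := rfl
@[simp] theorem one_a0 : (1 : Cub R).a0 = 1 := rfl
@[simp] theorem one_a1 : (1 : Cub R).a1 = 0 := rfl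
@[simp] theorem one_a2 : (1 : Cub R).a2 = 0 := rfl
@[simp] theorem add_a0 (x y : Cub R) : (x + y).a0 = x.a0 + y.a0 := rfl
@[simp] theorem add_a1 (x y : Cub R) : (x + y).a1 = x.a1 + y.a1 := rfl
@[simp] theorem add_a2 (x y : Cub R) : (x + y).a2 = x.a2 + y.a2 := rfl
@[simp] theorem neg_a0 (x : Cub R) : (-x).a0 = -x.a0 := rfl
@[simp] theorem neg_a1 (x : Cub R) : (-x).a1 = -x.a1 := rfl
@[simp] theorem neg_a2 (x : Cub R) : (-x).a2 = -x.a2 := rfl
@[simp] theorem sub_a0 (x y : Cub R) : (x - y).a0 = x.a0 - y.a0 := rfl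
@[simp] theorem sub_a1 (x y : Cub R) : (x - y).a1 = x.a1 - y.a1 := rfl
@[simp] theorem sub_a2 (x y : Cub R) : (x - y).a2 = x.a2 - y.a2 := rfl
@[simp] theorem mul_a0 (x y : Cub R) :
    (x * y).a0 = x.a0 * y.a0 + (x.a1 * y.a2 + x.a2 * y.a1) := rfl
@[simp] theorem mul_a1 (x y : Cub R) :
    (x * y).a1 = x.a0 * y.a1 + x.a1 * y.a0 + (x.a1 * y.a2 + x.a2 * y.a1) + x.a2 * y.a2 := rfl
@[simp] theorem mul_a2 (x y : Cub R) :
    (x * y).a2 = x.a0 * y.a2 + x.a1 * y.a1 + x.a2 * y.a0 + x.a2 * y.a2 := rfl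
@[simp] theorem nsmul_a0 (n : ℕ) (x : Cub R) : (n • x).a0 = n • x.a0 := rfl
@[simp] theorem nsmul_a1 (n : ℕ) (x : Cub R) : (n • x).a1 = n • x.a1 := rfl
@[simp] theorem nsmul_a2 (n : ℕ) (x : Cub R) : (n • x).a2 = n • x.a2 := rfl
@[simp] theorem zsmul_a0 (n : ℤ) (x : Cub R) : (n • x).a0 = n • x.a0 := rfl
@[simp] theorem zsmul_a1 (n : ℤ) (x : Cub R) : (n • x).a1 = n • x.a1 := rfl
@[simp] theorem zsmul_a2 (n : ℤ) (x : Cub R) : (n • x).a2 = n • x.a2 := rfl
@[simp] theorem natCast_a0 (n : ℕ) : ((n : Cub R)).a0 = n := rfl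
@[simp] theorem natCast_a1 (n : ℕ) : ((n : Cub R)).a1 = 0 := rfl
@[simp] theorem natCast_a2 (n : ℕ) : ((n : Cub R)).a2 = 0 := rfl
@[simp] theorem intCast_a0 (n : ℤ) : ((n : Cub R)).a0 = n := rfl
@[simp] theorem intCast_a1 (n : ℤ) : ((n : Cub R)).a1 = 0 := rfl
@[simp] theorem intCast_a2 (n : ℤ) : ((n : Cub R)).a2 = 0 := rfl

instance instCommRing : CommRing (Cub R) where
  add_assoc x y z := by ext <;> simp [add_assoc]
  zero_add x := by ext <;> simp
  add_zero x := by ext <;> simp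
  add_comm x y := by ext <;> simp [add_comm]
  mul_assoc x y z := by ext <;> simp <;> ring
  one_mul x := by ext <;> simp
  mul_one x := by ext <;> simp
  left_distrib x y z := by ext <;> simp <;> ring
  right_distrib x y z := by ext <;> simp <;> ring
  zero_mul x := by ext <;> simp
  mul_zero x := by ext <;> simp
  mul_comm x y := by ext <;> simp <;> ring
  neg_add_cancel x := by ext <;> simp
  sub_eq_add_neg x y := by ext <;> simp [sub_eq_add_neg]
  nsmul := fun n x => n • x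
  nsmul_zero x := by ext <;> simp
  nsmul_succ n x := by ext <;> simp [add_mul]
  zsmul := fun n x => n • x
  zsmul_zero' x := by ext <;> simp
  zsmul_succ' n x := by ext <;> simp [add_mul]
  zsmul_neg' n x := by
    ext <;> simp <;> ring
  natCast_zero := by ext <;> simp
  natCast_succ n := by ext <;> simp
  intCast_ofNat n := by ext <;> simp
  intCast_negSucc n := by ext <;> simp

@[simp] theorem ofNat_a0 (n : ℕ) [n.AtLeastTwo] : (OfNat.ofNat n : Cub R).a0 = OfNat.ofNat n := rfl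
@[simp] theorem ofNat_a1 (n : ℕ) [n.AtLeastTwo] : (OfNat.ofNat n : Cub R).a1 = 0 := rfl
@[simp] theorem ofNat_a2 (n : ℕ) [n.AtLeastTwo] : (OfNat.ofNat n : Cub R).a2 = 0 := rfl

/-- The element `ρ`. -/
def rho (R : Type*) [CommRing R] : Cub R := ⟨0, 1, 0⟩

@[simp] theorem rho_a0 : (rho R).a0 = 0 := rfl
@[simp] theorem rho_a1 : (rho R).a1 = 1 := rfl
@[simp] theorem rho_a2 : (rho R).a2 = 0 := rfl

theorem rho_cube : rho R ^ 3 = rho R + 1 := by
  ext <;> simp [pow_succ]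

/-- The inverse of `ρ`. -/
def rhoInv (R : Type*) [CommRing R] : Cub R := ⟨-1, 0, 1⟩

@[simp] theorem rhoInv_a0 : (rhoInv R).a0 = -1 := rfl
@[simp] theorem rhoInv_a1 : (rhoInv R).a1 = 0 := rfl
@[simp] theorem rhoInv_a2 : (rhoInv R).a2 = 1 := rfl

theorem rho_mul_rhoInv : rho R * rhoInv R = 1 := by
  ext <;> simp

/-- Constants. -/
def C : R →+* Cub R where
  toFun a := ⟨a, 0, 0⟩
  map_one' := rfl
  map_zero' := rfl
  map_mul' x y := by ext <;> simp
  map_add' x y := by ext <;> simp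

@[simp] theorem C_a0 (a : R) : (C a).a0 = a := rfl
@[simp] theorem C_a1 (a : R) : (C a).a1 = 0 := rfl
@[simp] theorem C_a2 (a : R) : (C a).a2 = 0 := rfl

theorem eq_sum (x : Cub R) : x = C x.a0 + C x.a1 * rho R + C x.a2 * rho R ^ 2 := by
  ext <;> simp [pow_succ]

/-- Functoriality. -/
def map {S : Type*} [CommRing S] (f : R →+* S) : Cub R →+* Cub S where
  toFun x := ⟨f x.a0, f x.a1, f x.a2⟩
  map_one' := by ext <;> simp
  map_zero' := by ext <;> simp
  map_mul' x y := by ext <;> simp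
  map_add' x y := by ext <;> simp

@[simp] theorem map_a0 {S : Type*} [CommRing S] (f : R →+* S) (x : Cub R) :
    (map f x).a0 = f x.a0 := rfl
@[simp] theorem map_a1 {S : Type*} [CommRing S] (f : R →+* S) (x : Cub R) :
    (map f x).a1 = f x.a1 := rfl
@[simp] theorem map_a2 {S : Type*} [CommRing S] (f : R →+* S) (x : Cub R) :
    (map f x).a2 = f x.a2 := rfl

/-- Evaluation at a root `r` of `X³ - X - 1` in an extension, coefficients mapped by `f`. -/
def ev {S : Type*} [CommRing S] (f : R →+* S) (r : S) (hr : r ^ 3 = r + 1) : Cub R →+* S where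
  toFun x := f x.a0 + f x.a1 * r + f x.a2 * r ^ 2
  map_one' := by simp
  map_zero' := by simp
  map_mul' x y := by
    simp only [mul_a0, mul_a1, mul_a2, map_add, map_mul]
    have h4 : r ^ 4 = r ^ 2 + r := by
      have : r ^ 4 = r * r ^ 3 := by ring
      rw [this, hr]; ring
    linear_combination
      (-(f x.a1 * f y.a2 + f x.a2 * f y.a1)) * hr - (f x.a2 * f y.a2) * h4
  map_add' x y := by
    simp only [add_a0, add_a1, add_a2, map_add]; ring

theorem ev_apply {S : Type*} [CommRing S] (f : R →+* S) (r : S) (hr : r ^ 3 = r + 1)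
    (x : Cub R) : ev f r hr x = f x.a0 + f x.a1 * r + f x.a2 * r ^ 2 := rfl

@[simp] theorem ev_rho {S : Type*} [CommRing S] (f : R →+* S) (r : S) (hr : r ^ 3 = r + 1) :
    ev f r hr (rho R) = r := by simp [ev_apply]

@[simp] theorem ev_C {S : Type*} [CommRing S] (f : R →+* S) (r : S) (hr : r ^ 3 = r + 1)
    (a : R) : ev f r hr (C a) = f a := by simp [ev_apply]

/-- The trace form: `tr 1 = 3`, `tr ρ = 0`, `tr ρ² = 2`. -/
def tr (x : Cub R) : R := 3 * x.a0 + 2 * x.a2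

/-- The norm form. -/
def nm (x : Cub R) : R :=
  x.a0 ^ 3 + x.a1 ^ 3 + x.a2 ^ 3 - 3 * x.a0 * x.a1 * x.a2 + 2 * x.a0 ^ 2 * x.a2
    - x.a0 * x.a1 ^ 2 + x.a0 * x.a2 ^ 2 - x.a1 * x.a2 ^ 2

end Ring

end Cub

/-- ring homomorphisms commute with the forms -/
theorem map_F {R S : Type*} [CommRing R] [CommRing S] (φ : R →+* S) (u v z w : R) :
    φ (F u v z w) = F (φ u) (φ v) (φ z) (φ w) := by
  simp [F, map_ofNat]

theorem map_cu {R S : Type*} [CommRing R] [CommRing S] (φ : R →+* S) (a b r : R) :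
    φ (cu a b r) = cu (φ a) (φ b) (φ r) := by
  simp [cu, map_ofNat]

theorem map_cv {R S : Type*} [CommRing R] [CommRing S] (φ : R →+* S) (a b r : R) :
    φ (cv a b r) = cv (φ a) (φ b) (φ r) := by
  simp [cv, map_ofNat]

theorem map_cz {R S : Type*} [CommRing R] [CommRing S] (φ : R →+* S) (a b r : R) :
    φ (cz a b r) = cz (φ a) (φ b) (φ r) := by
  simp [cz, map_ofNat]

theorem map_cw {R S : Type*} [CommRing R] [CommRing S] (φ : R →+* S) (a b r : R) :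
    φ (cw a b r) = cw (φ a) (φ b) (φ r) := by
  simp [cw, map_ofNat]

theorem map_sx {R S : Type*} [CommRing R] [CommRing S] (φ : R →+* S) (a b r : R) (k : Fin 4) :
    φ (sx a b r k) = sx (φ a) (φ b) (φ r) k := by
  fin_cases k <;> simp [sx, map_cu, map_cv, map_cz, map_cw, map_ofNat]

theorem map_Theta {R S : Type*} [CommRing R] [CommRing S] (φ : R →+* S) (α U : R) (k : Fin 4) :
    φ (Theta α U k) = Theta (φ α) (φ U) k := by
  unfold Theta
  rw [map_sx]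
  congr 1 <;> simp [qa, qb, qr, qn, qh, qg, map_ofNat]

end C31
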