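import Pool.Agent.Lib.MP_9f7b43_nt.Data

/-!
# MP_9f7b43_nt: the roots of `X³ - X - 1` and the three embeddings of `K`

`r1 : ℝ` the real root, `1.3 < r1 < 1.4`; `r2 : ℂ` the root with positive imaginary part;
`rt : Fin 3 → ℂ = ![r1, r2, conj r2]`.
-/

namespace C31

open Complex

theorem exists_r1 : ∃ r : ℝ, 13 / 10 < r ∧ r < 14 / 10 ∧ r ^ 3 = r + 1 := by
  have hc : ContinuousOn (fun x : ℝ => x ^ 3 - x - 1) (Set.Icc (13 / 10) (14 / 10)) := by
    fun_prop
  have h := intermediate_value_Ioo (by norm_num : (13 / 10 : ℝ) ≤ 14 / 10) hc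
  have h0 : (0 : ℝ) ∈ Set.Ioo ((fun x : ℝ => x ^ 3 - x - 1) (13 / 10))
      ((fun x : ℝ => x ^ 3 - x - 1) (14 / 10)) := by
    constructor <;> norm_num
  obtain ⟨r, hr, h1⟩ := h h0
  exact ⟨r, hr.1, hr.2, by simp only at h1; linarith⟩

/-- The real root of `X³ - X - 1`. -/
noncomputable def r1 : ℝ := exists_r1.choose

theorem r1_gt : 13 / 10 < r1 := exists_r1.choose_spec.1
theorem r1_lt : r1 < 14 / 10 := exists_r1.choose_spec.2.1
theorem r1_cube : r1 ^ 3 = r1 + 1 := exists_r1.choose_spec.2.2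
theorem r1_pos : 0 < r1 := by linarith [r1_gt]
theorem one_lt_r1 : 1 < r1 := by linarith [r1_gt]
theorem r1_ne_zero : r1 ≠ 0 := r1_pos.ne'

theorem r1_inv : r1⁻¹ = r1 ^ 2 - 1 := by
  have h : r1 * (r1 ^ 2 - 1) = 1 := by
    have := r1_cube
    nlinarith
  exact inv_eq_of_mul_eq_one_right h

theorem r1_disc : 0 < 3 * r1 ^ 2 - 4 := by nlinarith [r1_gt]

/-- The root of `X³ - X - 1` with positive imaginary part. -/
noncomputable def r2 : ℂ := ⟨-r1 / 2, Real.sqrt (3 * r1 ^ 2 - 4) / 2⟩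

@[simp] theorem r2_re : r2.re = -r1 / 2 := rfl
@[simp] theorem r2_im : r2.im = Real.sqrt (3 * r1 ^ 2 - 4) / 2 := rfl

theorem r2_im_pos : 0 < r2.im := by
  rw [r2_im]
  have := Real.sqrt_pos.mpr r1_disc
  linarith

theorem r2_quad : r2 ^ 2 + (r1 : ℂ) * r2 + ((r1 : ℂ) ^ 2 - 1) = 0 := by
  have hs : Real.sqrt (3 * r1 ^ 2 - 4) * Real.sqrt (3 * r1 ^ 2 - 4) = 3 * r1 ^ 2 - 4 :=
    Real.mul_self_sqrt r1_disc.le
  rw [sq r2, sq (r1 : ℂ)]
  apply Complex.ext
  · simp only [Complex.add_re, Complex.mul_re, Complex.sub_re, Complex.ofReal_re,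
      Complex.ofReal_im, Complex.one_re, r2_re, r2_im, Complex.zero_re]
    nlinarith [hs]
  · simp only [Complex.add_im, Complex.mul_im, Complex.sub_im, Complex.ofReal_re,
      Complex.ofReal_im, Complex.one_im, r2_re, r2_im, Complex.zero_im]
    ring

theorem r1_cubeC : (r1 : ℂ) ^ 3 = (r1 : ℂ) + 1 := by exact_mod_cast congrArg (fun x : ℝ => (x : ℂ)) r1_cube

theorem r2_cube : r2 ^ 3 = r2 + 1 := by
  have h := r2_quad
  have h1 := r1_cubeC
  linear_combination (r2 - (r1 : ℂ)) * h + h1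

theorem r2c_cube : ((starRingEnd ℂ) r2) ^ 3 = (starRingEnd ℂ) r2 + 1 := by
  have := congrArg (starRingEnd ℂ) r2_cube
  simpa using this

theorem sum_roots : (r1 : ℂ) + r2 + (starRingEnd ℂ) r2 = 0 := by
  apply Complex.ext
  · simp
    ring
  · simp

theorem r2_mul_conj : r2 * (starRingEnd ℂ) r2 = (r1 : ℂ) ^ 2 - 1 := by
  have h := sum_roots
  have h2 := r2_quad
  have h3 : (starRingEnd ℂ) r2 = -(r1 : ℂ) - r2 := by linear_combination h
  rw [h3]
  linear_combination -h2

theorem prod_roots : (r1 : ℂ) * r2 * (starRingEnd ℂ) r2 = 1 := by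
  have h := r2_mul_conj
  have h1 := r1_cubeC
  linear_combination (r1 : ℂ) * h + h1

theorem normSq_r2 : ‖r2‖ ^ 2 = r1⁻¹ := by
  have h : ((‖r2‖ ^ 2 : ℝ) : ℂ) = ((r1 ^ 2 - 1 : ℝ) : ℂ) := by
    rw [← Complex.normSq_eq_norm_sq, ← Complex.mul_conj, r2_mul_conj]
    push_cast
    ring
  rw [r1_inv]
  exact_mod_cast h

theorem norm_r2_pos : 0 < ‖r2‖ := by
  rw [norm_pos_iff]
  intro h
  have := r2_im_pos
  rw [h] at this
  simp at this

theorem norm_r2_lt_one : ‖r2‖ < 1 := by
  have h := normSq_r2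
  have h1 : r1⁻¹ < 1 := inv_lt_one_of_one_lt₀ one_lt_r1
  have h2 := norm_r2_pos
  nlinarith

/-- The three roots of `X³ - X - 1` in `ℂ`. -/
noncomputable def rt : Fin 3 → ℂ := ![(r1 : ℂ), r2, (starRingEnd ℂ) r2]

@[simp] theorem rt_zero : rt 0 = (r1 : ℂ) := rfl
@[simp] theorem rt_one : rt 1 = r2 := rfl
@[simp] theorem rt_two : rt 2 = (starRingEnd ℂ) r2 := rfl

theorem rt_cube (j : Fin 3) : rt j ^ 3 = rt j + 1 := by
  fin_cases j
  · exact r1_cubeC
  · exact r2_cube
  · exact r2c_cube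

theorem rt_ne_zero (j : Fin 3) : rt j ≠ 0 := by
  intro h
  have := rt_cube j
  rw [h] at this
  norm_num at this

theorem r1_ne_r2 : (r1 : ℂ) ≠ r2 := by
  intro h
  have := r2_im_pos
  rw [← h] at this
  simp at this

theorem r1_ne_r2c : (r1 : ℂ) ≠ (starRingEnd ℂ) r2 := by
  intro h
  have h2 := congrArg Complex.im h
  have := r2_im_pos
  rw [Complex.conj_im] at h2
  simp only [Complex.ofReal_im] at h2
  linarith

theorem r2_ne_r2c : r2 ≠ (starRingEnd ℂ) r2 := by
  intro h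
  have h2 := congrArg Complex.im h
  have := r2_im_pos
  rw [Complex.conj_im] at h2
  linarith

theorem rt_injective : Function.Injective rt := by
  intro i j h
  fin_cases i <;> fin_cases j <;> simp only [Fin.zero_eta, Fin.mk_one, Fin.reduceFinMk,
    rt_zero, rt_one, rt_two] at h ⊢
  · exact absurd h r1_ne_r2
  · exact absurd h r1_ne_r2c
  · exact absurd h.symm r1_ne_r2
  · exact absurd h r2_ne_r2c
  · exact absurd h.symm r1_ne_r2c
  · exact absurd h.symm r2_ne_r2c

theorem e1_rt : rt 0 + rt 1 + rt 2 = 0 := sum_roots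

theorem e3_rt : rt 0 * rt 1 * rt 2 = 1 := prod_roots

theorem e2_rt : rt 0 * rt 1 + rt 0 * rt 2 + rt 1 * rt 2 = -1 := by
  have h1 := e1_rt
  have h2 : rt 1 * rt 2 = (rt 0) ^ 2 - 1 := r2_mul_conj
  linear_combination rt 0 * h1 + h2

/-- The embedding number `j` of `Cub R`, for a ring homomorphism `f : R →+* ℂ`. -/
noncomputable def emb {R : Type*} [CommRing R] (f : R →+* ℂ) (j : Fin 3) : Cub R →+* ℂ :=
  Cub.ev f (rt j) (rt_cube j)

theorem emb_apply {R : Type*} [CommRing R] (f : R →+* ℂ) (j : Fin 3) (x : Cub R) :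
    emb f j x = f x.a0 + f x.a1 * rt j + f x.a2 * rt j ^ 2 := rfl

@[simp] theorem emb_rho {R : Type*} [CommRing R] (f : R →+* ℂ) (j : Fin 3) :
    emb f j (Cub.rho R) = rt j := by simp [emb]

@[simp] theorem emb_C {R : Type*} [CommRing R] (f : R →+* ℂ) (j : Fin 3) (a : R) :
    emb f j (Cub.C a) = f a := by simp [emb]

theorem emb_rhoInv {R : Type*} [CommRing R] (f : R →+* ℂ) (j : Fin 3) :
    emb f j (Cub.rhoInv R) = (rt j)⁻¹ := by
  have h : emb f j (Cub.rho R * Cub.rhoInv R) = 1 := by rw [Cub.rho_mul_rhoInv, map_one]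
  rw [map_mul, emb_rho] at h
  exact (inv_eq_of_mul_eq_one_right h).symm

/-- The norm form is the product of the three embeddings. -/
theorem emb_prod {R : Type*} [CommRing R] (f : R →+* ℂ) (x : Cub R) :
    emb f 0 x * emb f 1 x * emb f 2 x = f (Cub.nm x) := by
  have h1 := e1_rt
  have h2 := e2_rt
  have h3 := e3_rt
  rw [emb_apply, emb_apply, emb_apply]
  simp only [Cub.nm, map_add, map_sub, map_mul, map_pow, map_ofNat]
  generalize f x.a0 = a at *
  generalize f x.a1 = b at *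
  generalize f x.a2 = c at *
  generalize rt 0 = p at *
  generalize rt 1 = q at *
  generalize rt 2 = s at *
  linear_combination
    (a ^ 2 * b + a ^ 2 * c * (p + q + s) + a * b * c * (p * q + p * s + q * s)
      - 2 * a * c ^ 2 * (p * q * s) + b ^ 2 * c * (p * q * s)) * h1
    + (-2 * a ^ 2 * c + a * b ^ 2 + a * c ^ 2 * (p * q + p * s + q * s - 1)
      + b * c ^ 2 * (p * q * s)) * h2
    + (-(b * c ^ 2) + b ^ 3 + c ^ 3 * (p * q * s + 1) - 3 * a * b * c) * h3

theorem no_rat_root (r : ℚ) : r ^ 3 ≠ r + 1 := by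
  intro h
  have hm : (Polynomial.X ^ 3 - Polynomial.X - 1 : Polynomial ℤ).Monic := by
    monicity!
  have hr : Polynomial.aeval r (Polynomial.X ^ 3 - Polynomial.X - 1 : Polynomial ℤ) = 0 := by
    simp [h]
  obtain ⟨n, hn⟩ := isInteger_of_is_root_of_monic hm hr
  have h3 : (n : ℤ) ^ 3 = n + 1 := by
    have : ((n : ℤ) : ℚ) = r := by simpa using hn
    rw [← this] at h
    exact_mod_cast h
  have h4 : n * (n ^ 2 - 1) = 1 := by linear_combination h3
  have h5 : n = 1 ∨ n = -1 := Int.eq_one_or_neg_one_of_mul_eq_one h4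
  rcases h5 with h5 | h5 <;> rw [h5] at h4 <;> norm_num at h4

theorem irred_poly : Irreducible (Polynomial.X ^ 3 - Polynomial.X - 1 : Polynomial ℚ) := by
  have hm : (Polynomial.X ^ 3 - Polynomial.X - 1 : Polynomial ℚ).Monic := by
    monicity!
  have hd : (Polynomial.X ^ 3 - Polynomial.X - 1 : Polynomial ℚ).natDegree = 3 := by
    compute_degree!
  rw [hm.irreducible_iff_roots_eq_zero_of_degree_le_three (by omega) (by omega)]
  rw [Multiset.eq_zero_iff_forall_notMem]
  intro r hr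
  rw [Polynomial.mem_roots hm.ne_zero] at hr
  have : r ^ 3 - r - 1 = 0 := by simpa using hr
  exact no_rat_root r (by linear_combination this)

/-- `1, rt j, (rt j)²` are linearly independent over `ℚ`. -/
theorem rt_indep (j : Fin 3) (a b c : ℚ)
    (h : (a : ℂ) + (b : ℂ) * rt j + (c : ℂ) * rt j ^ 2 = 0) : a = 0 ∧ b = 0 ∧ c = 0 := by
  have hm : (Polynomial.X ^ 3 - Polynomial.X - 1 : Polynomial ℚ).Monic := by
    monicity!
  have hmin : minpoly ℚ (rt j) = Polynomial.X ^ 3 - Polynomial.X - 1 := by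
    refine (minpoly.eq_of_irreducible_of_monic irred_poly ?_ hm).symm
    simp [rt_cube j]
  have hq : Polynomial.aeval (rt j)
      (Polynomial.C a + Polynomial.C b * Polynomial.X + Polynomial.C c * Polynomial.X ^ 2) = 0 := by
    simpa using h
  have hdvd := minpoly.dvd ℚ (rt j) hq
  rw [hmin] at hdvd
  have hz : Polynomial.C a + Polynomial.C b * Polynomial.X + Polynomial.C c * Polynomial.X ^ 2
      = 0 := by
    by_contra hne
    have h1 := Polynomial.natDegree_le_of_dvd hdvd hne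
    have hd : (Polynomial.X ^ 3 - Polynomial.X - 1 : Polynomial ℚ).natDegree = 3 := by
      compute_degree!
    have h2 : (Polynomial.C a + Polynomial.C b * Polynomial.X
        + Polynomial.C c * Polynomial.X ^ 2).natDegree ≤ 2 := by
      compute_degree
    omega
  have h0 := congrArg (fun p => Polynomial.coeff p 0) hz
  have h1 := congrArg (fun p => Polynomial.coeff p 1) hz
  have h2 := congrArg (fun p => Polynomial.coeff p 2) hz
  simp [Polynomial.coeff_X] at h0 h1 h2
  exact ⟨h0, h1, h2⟩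

theorem emb_rat_injective (j : Fin 3) : Function.Injective (emb (Rat.castHom ℂ) j) := by
  rw [injective_iff_map_eq_zero]
  intro x hx
  rw [emb_apply] at hx
  obtain ⟨h0, h1, h2⟩ := rt_indep j x.a0 x.a1 x.a2 (by simpa using hx)
  ext <;> simp [h0, h1, h2]

theorem emb_int_injective (j : Fin 3) : Function.Injective (emb (Int.castRingHom ℂ) j) := by
  rw [injective_iff_map_eq_zero]
  intro x hx
  rw [emb_apply] at hx
  obtain ⟨h0, h1, h2⟩ := rt_indep j x.a0 x.a1 x.a2 (by push_cast; simpa using hx)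
  ext
  · simpa using h0
  · simpa using h1
  · simpa using h2

theorem emb_int_ne_zero (j : Fin 3) {x : Cub ℤ} (hx : x ≠ 0) :
    emb (Int.castRingHom ℂ) j x ≠ 0 := by
  intro h
  exact hx (emb_int_injective j (by rw [h, map_zero]))

theorem emb_rat_ne_zero (j : Fin 3) {x : Cub ℚ} (hx : x ≠ 0) :
    emb (Rat.castHom ℂ) j x ≠ 0 := by
  intro h
  exact hx (emb_rat_injective j (by rw [h, map_zero]))

end C31
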