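import Pool.Agent.Lib.MP_9f7b43_nt.G.Final
import Pool.Agent.Lib.MP_9f7b43_nt.G.Size
import Pool.Agent.Lib.MP_9f7b43_nt.G.Dist
import Pool.Agent.Lib.MP_9f7b43_nt.G.Low
import Pool.Agent.Lib.MP_9f7b43_nt.G.Fine
import Pool.Agent.Lib.MP_9f7b43_nt.D.Up
import Pool.Agent.Lib.MP_9f7b43_nt.L.Main
import Pool.Agent.Lib.MP_9f7b43_nt.O.Final
import Pool.Agent.Lib.MP_9f7b43_nt.B.Main
import Pool.Agent.Lib.SD.All
import Pool.Agent.Lib.SDC.All

/-!
# MP_9f7b43_nt: the final assembly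
-/

namespace MP9f7b43

/-- The theorem: the negation of Q1 of MP_9f7b43_nt. -/
theorem finalTheorem : FinalStatement :=
  assembly gSmooth gDim (D.tDSeq gSize gDist) (lLower_of_lFine lFine)
    (lCurve_of (L.tMain (Pool.Agent.Lib.SD.sd_of_core Pool.Agent.Lib.SDC.core) O.oStmt))

end MP9f7b43
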