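import Pool.Agent.Lib.MP_9f7b43_nt.G.Pts
import Pool.Agent.Lib.MP_9f7b43_nt.Roots

/-!
# MP_9f7b43_nt: the interface statements between the parts, and the final assembly

(The Props of helper38's Top.lean, re-based on `C31.Cub` and Statement.lean.)
-/

namespace MP9f7b43

open MvPolynomial Filter Topology C31

/-- The embedding number `j` of `K = Cub ℚ`. -/
noncomputable abbrev eK (j : Fin 3) : Cub ℚ →+* ℂ := emb (Rat.castHom ℂ) j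

/-- `max_k |z_k^(j)|`. -/
noncomputable def nrm (z : Fin 4 → Cub ℚ) (j : Fin 3) : ℝ := ⨆ k, ‖eK j (z k)‖

/-- The cubic form on vectors. -/
def FF {S : Type*} [CommRing S] (x : Fin 4 → S) : S := C31.F (x 0) (x 1) (x 2) (x 3)

/-! ## Part G -/

/-- G: the variety is smooth. -/
def GSmooth : Prop := XI.Smooth

/-- G: the variety has dimension 6. -/
def GDim : Prop := XI.dim = 6

/-- G5: recovery of `a ∈ K_E⁴` from a zero of the ideal with `x_(k₀,k₀,k₀) ≠ 0`, over any field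
`E ⊇ ℚ`. -/
def GRecover : Prop := ∀ (E : Type) [Field E] [Algebra ℚ E] (x : Idx → E) (k₀ : Fin 4),
  (∀ g ∈ XI.ideal, aeval x g = 0) → x (diagIdx k₀) ≠ 0 →
  ∃ a : Fin 4 → Cub E, a k₀ = 1 ∧ FF a = 0 ∧
    (∀ J, 6 * x J = x (diagIdx k₀) * xJ a J) ∧
    ∀ (k : Fin 4) (l : Fin 3), Cub.tr (Cub.rho E ^ (l : ℕ) * a k) * x (diagIdx k₀)
      = 3 * x ![(k, l), (k₀, 0), (k₀, 0)]

/-- G6: comparison of sizes. -/
def GSize : Prop := ∃ c C : ℝ, 0 < c ∧ 0 < C ∧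
  ∀ z : Fin 4 → Cub ℚ, c * ∏ j, nrm z j ≤ ⨆ J, |((xJ z J : ℚ) : ℝ)| ∧
    (⨆ J, |((xJ z J : ℚ) : ℝ)|) ≤ C * ∏ j, nrm z j

/-- G6: comparison of distances; `a ∈ K⁴` with `a_2 = 1` (near `P`). -/
def GDist : Prop := ∃ C d₀ : ℝ, 0 < C ∧ 0 < d₀ ∧
  (∀ x : Projectivization ℚ (Idx → ℚ), chordal PX x < d₀ → x.rep (diagIdx 2) ≠ 0) ∧
  (∀ (a : Fin 4 → Cub ℚ) (ha : xJ a ≠ 0), a 2 = 1 →
    chordal PX (Projectivization.mk ℚ (xJ a) ha) < d₀ →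
    ∀ j, ∀ k, k ≠ 2 → ‖eK j (a k)‖ ≤ C * chordal PX (Projectivization.mk ℚ (xJ a) ha)) ∧
  (∀ (a : Fin 4 → Cub ℚ) (ha : xJ a ≠ 0), a 2 = 1 → ∀ η : ℝ, 0 ≤ η → η ≤ 1 →
    (∀ j, ∀ k, k ≠ 2 → ‖eK j (a k)‖ ≤ η) →
    chordal PX (Projectivization.mk ℚ (xJ a) ha) ≤ C * η)

/-! ## Part D -/

/-- D: the Zariski dense sequence. -/
def DSeq : Prop := ∃ x : ℕ → Projectivization ℚ (Idx → ℚ), XI.DenseSeq x ∧
  Tendsto (fun n => chordal PX (x n)) atTop (𝓝 0) ∧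
  ∀ γ : ℝ, 6 < γ → ∃ C : ℝ, ∀ n, chordal PX (x n) ^ γ * (x n).mulHeight ≤ C

/-! ## Part L: Liouville's inequality with all data -/

/-- L: for every rational point `x ≠ P` of `X` near `P`. -/
def LFine : Prop := ∃ c B d₀ : ℝ,
  0 < c ∧ 0 < B ∧ 0 < d₀ ∧ ∀ x : Projectivization ℚ (Idx → ℚ), x ∈ XI.points →
    x ≠ PX → chordal PX x < d₀ →
    0 < chordal PX x ∧
    ∃ (a : Fin 4 → Cub ℚ) (D : ℕ), 0 < D ∧ a 3 = 1 ∧ FF a = 0 ∧ x.rep (diagIdx 3) ≠ 0 ∧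
      (∀ J, 6 * x.rep J = x.rep (diagIdx 3) * xJ a J) ∧
      (∀ k, ∃ m : Cub ℤ, Cub.C (69 * D : ℚ) * a k = Cub.map (Int.castRingHom ℚ) m) ∧
      (∀ j, c / chordal PX x ≤ max (max ‖eK j (a 0)‖ ‖eK j (a 1)‖) 1 ∧
        ‖eK j (a 2)‖ ≤ B * max (max ‖eK j (a 0)‖ ‖eK j (a 1)‖) 1 ^ 2 ∧
        c * max (max ‖eK j (a 0)‖ ‖eK j (a 1)‖) 1 ≤ chordal PX x * ‖eK j (a 2)‖) ∧
      c * D * ∏ j, ‖eK j (a 2)‖ ≤ x.mulHeight

/-- L: every curve has approximation constant larger than `6` at `P`. -/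
def LCurve : Prop := ∀ C : ProjVar Idx, XI.ideal ≤ C.ideal → C.dim = 1 → 6 < alpha C.points PX

/-- L: every sequence of distinct points has approximation constant at least `6`. -/
def LLower : Prop := 6 ≤ alpha XI.points PX

/-! ## The assembly -/

theorem alphaSeq_le_of_bound {ι : Type} [Fintype ι] (P : Projectivization ℚ (ι → ℚ))
    (x : ℕ → Projectivization ℚ (ι → ℚ)) (t : ℝ)
    (h0 : Tendsto (fun n => chordal P (x n)) atTop (𝓝 0))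
    (h : ∀ γ : ℝ, t < γ → ∃ C : ℝ, ∀ n, chordal P (x n) ^ γ * (x n).mulHeight ≤ C) :
    alphaSeq P x ≤ (t : EReal) := by
  refine EReal.le_of_forall_lt_iff_le.mp ?_
  intro z hz
  have hz' : t < z := by exact_mod_cast hz
  refine sInf_le ⟨z, rfl, h0, ?_⟩
  obtain ⟨C, hC⟩ := h z hz'
  refine ⟨C, ?_⟩
  rintro _ ⟨n, rfl⟩
  exact hC n

theorem alpha_le_alphaSeq {ι : Type} [Fintype ι] (S : Set (Projectivization ℚ (ι → ℚ)))
    (P : Projectivization ℚ (ι → ℚ)) (x : ℕ → Projectivization ℚ (ι → ℚ))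
    (hx : Function.Injective x) (hS : ∀ n, x n ∈ S) : alpha S P ≤ alphaSeq P x :=
  sInf_le ⟨x, hx, hS, rfl⟩

theorem assembly (h1 : GSmooth) (h2 : GDim) (h3 : DSeq) (h4 : LLower) (h5 : LCurve) :
    FinalStatement := by
  obtain ⟨x, hx, hlim, hb⟩ := h3
  have ha : alphaSeq PX x ≤ 6 := by
    have := alphaSeq_le_of_bound PX x 6 hlim hb
    exact_mod_cast this
  have hle : alpha XI.points PX ≤ alphaSeq PX x :=
    alpha_le_alphaSeq _ _ _ hx.1 hx.2.1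
  refine ⟨Idx, inferInstance, XI, PX, XI_geomIntegral, h2, h1, PX_mem_points,
    le_antisymm (hle.trans ha) h4, ⟨x, hx, le_antisymm ha (le_trans h4 hle)⟩, h5⟩

end MP9f7b43
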