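import Mathlib

/-!
# MP_9f7b43_nt: definitions used in the final statement

Everything is over the number field `ℚ` and its real place.

A projective variety is given by a homogeneous prime ideal, the ample line bundle is `O(1)`, the
height is the (multiplicative) Weil height of projective space, the distance is the chordal
distance of the real projective space.
-/

namespace MP9f7b43

open MvPolynomial

/-- A projective variety over `ℚ` in the projective space with homogeneous coordinates `T_i`,
`i ∈ ι`: a homogeneous prime ideal of `ℚ[T_i : i ∈ ι]` which does not contain all coordinates. -/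
structure ProjVar (ι : Type) [Fintype ι] where
  /-- the homogeneous ideal of the variety -/
  ideal : Ideal (MvPolynomial ι ℚ)
  isPrime : ideal.IsPrime
  homogeneous : ∀ g ∈ ideal, ∀ d : ℕ, homogeneousComponent d g ∈ ideal
  relevant : ∃ i : ι, (X i : MvPolynomial ι ℚ) ∉ ideal

variable {ι : Type} [Fintype ι]

/-- The dimension of a projective variety: the transcendence degree over `ℚ` of its homogeneous
coordinate ring, minus one. -/
noncomputable def ProjVar.dim (V : ProjVar ι) : ℕ :=
  Cardinal.toNat (Algebra.trdeg ℚ (MvPolynomial ι ℚ ⧸ V.ideal)) - 1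

/-- `V` is geometrically integral: its ideal generates a prime ideal of `ℂ[T_i : i ∈ ι]`. -/
def ProjVar.GeomIntegral (V : ProjVar ι) : Prop :=
  (V.ideal.map (MvPolynomial.map (algebraMap ℚ ℂ))).IsPrime

/-- The tangent space of the affine cone over `V` at the point `x` of `ℂ^ι`: the common kernel of
the differentials at `x` of all elements of the ideal of `V`. -/
def ProjVar.tangentSpace (V : ProjVar ι) (x : ι → ℂ) : Submodule ℂ (ι → ℂ) where
  carrier := {v | ∀ g ∈ V.ideal, ∑ i, aeval x (pderiv i g) * v i = 0}
  add_mem' := by
    intro a b ha hb g hg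
    simp only [Pi.add_apply, mul_add, Finset.sum_add_distrib]
    rw [ha g hg, hb g hg, add_zero]
  zero_mem' := by
    intro g _
    simp
  smul_mem' := by
    intro c v hv g hg
    have h := hv g hg
    simp only [Pi.smul_apply, smul_eq_mul]
    have : ∀ i, aeval x (pderiv i g) * (c * v i) = c * (aeval x (pderiv i g) * v i) := by
      intro i; ring
    simp only [this, ← Finset.mul_sum]
    rw [h, mul_zero]

/-- Smoothness (Jacobian criterion): at every complex point of the variety the Jacobian matrix of
the equations has rank at least the codimension, that is, the tangent space of the affine cone has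
dimension at most `dim V + 1`. (The opposite inequality always holds.) -/
def ProjVar.Smooth (V : ProjVar ι) : Prop :=
  ∀ x : ι → ℂ, x ≠ 0 → (∀ g ∈ V.ideal, aeval x g = 0) →
    Module.finrank ℂ (V.tangentSpace x) ≤ V.dim + 1

/-- The set `V(ℚ)` of rational points of `V`. -/
def ProjVar.points (V : ProjVar ι) : Set (Projectivization ℚ (ι → ℚ)) :=
  {x | ∀ g ∈ V.ideal, eval x.rep g = 0}

/-- The chordal distance of two rational points of projective space, at the real place:
`max |x_i y_j - x_j y_i| / (max |x_i| * max |y_j|)`. -/
noncomputable def chordal (x y : Projectivization ℚ (ι → ℚ)) : ℝ :=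
  (⨆ p : ι × ι, |((x.rep p.1 * y.rep p.2 - x.rep p.2 * y.rep p.1 : ℚ) : ℝ)|) /
    ((⨆ i, |(x.rep i : ℝ)|) * (⨆ i, |(y.rep i : ℝ)|))

/-- The approximation constant `α({x_n}, P)` of a sequence, relative to `O(1)`: the infimum of the
real numbers `γ` for which `dist(P, x_n) ^ γ * H(x_n)` is bounded above, if `dist(P, x_n)` tends
to `0`, and `⊤` otherwise (infimum of the empty set). -/
noncomputable def alphaSeq (P : Projectivization ℚ (ι → ℚ))
    (x : ℕ → Projectivization ℚ (ι → ℚ)) : EReal :=
  sInf {γ : EReal | ∃ r : ℝ, γ = (r : EReal) ∧
    Filter.Tendsto (fun n => chordal P (x n)) Filter.atTop (nhds 0) ∧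
    BddAbove (Set.range fun n => chordal P (x n) ^ r * (x n).mulHeight)}

/-- The approximation constant of `P` relative to `O(1)`, computed with the sequences of distinct
points of the set `S` of rational points (`S = X(ℚ)`, or `S = C(ℚ)` for a curve `C`). -/
noncomputable def alpha (S : Set (Projectivization ℚ (ι → ℚ)))
    (P : Projectivization ℚ (ι → ℚ)) : EReal :=
  sInf {a : EReal | ∃ x : ℕ → Projectivization ℚ (ι → ℚ),
    Function.Injective x ∧ (∀ n, x n ∈ S) ∧ a = alphaSeq P x}

/-- A Zariski dense sequence of distinct rational points of `V`: every form which vanishes at all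
points of the sequence belongs to the ideal of `V`. -/
def ProjVar.DenseSeq (V : ProjVar ι) (x : ℕ → Projectivization ℚ (ι → ℚ)) : Prop :=
  Function.Injective x ∧ (∀ n, x n ∈ V.points) ∧
    ∀ (d : ℕ) (g : MvPolynomial ι ℚ), g.IsHomogeneous d → (∀ n, eval (x n).rep g = 0) →
      g ∈ V.ideal

/-- The final statement. There is a smooth (geometrically integral) projective variety `V` over
`ℚ`, of dimension `6`, with the very ample line bundle `A = O(1)`, and a rational point `P` with
`α(P, A) = 6` at the real place, such that this value is attained by a Zariski dense sequence,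
whereas `α(P, A|C) > 6` for every curve `C` in `V`. (In particular it is the negation of Q1.) -/
def FinalStatement : Prop :=
  ∃ (ι : Type) (_ : Fintype ι) (V : ProjVar ι) (P : Projectivization ℚ (ι → ℚ)),
    V.GeomIntegral ∧ V.dim = 6 ∧ V.Smooth ∧ P ∈ V.points ∧ alpha V.points P = 6 ∧
      (∃ x : ℕ → Projectivization ℚ (ι → ℚ), V.DenseSeq x ∧ alphaSeq P x = 6) ∧
      ∀ C : ProjVar ι, V.ideal ≤ C.ideal → C.dim = 1 → 6 < alpha C.points P

end MP9f7b43
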